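import Pool.Agent.H59.KA.Stmts
import Pool.Agent.H59.KP.EVJ

/-!
# Project KA, module QGN: the generator of `Ph` along the channel
-/

set_option autoImplicit false

open MeasureTheory Set Filter Topology
open scoped ContDiff

namespace Pool.Agent.H59.KA

open Pool.Agent.H84 hiding cv mn
open Pool.Agent.H84.Sym Pool.Agent.H84.Sym.P2x Pool.Agent.H19.KL
open Pool.Agent.H73.KG Pool.Agent.H20.KH Pool.Agent.H78.KP Pool.Agent.H59.KG Pool.Agent.H59.KP

section alg

variable {ι : Type} [Fintype ι] [DecidableEq ι]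

omit [DecidableEq ι] in
theorem qgn_tr4 (X B Z : Matrix ι ι ℝ) :
    (X * B * Z * B).trace = ∑ i, ∑ j, ∑ k, ∑ l, (B j k * B l i) * (X i j * Z k l) := by
  have e1 : ∀ i, (X * B * Z * B) i i = ∑ j, ∑ k, ∑ l, (B j k * B l i) * (X i j * Z k l) := by
    intro i
    rw [Matrix.mul_assoc, Matrix.mul_assoc, Matrix.mul_apply]
    refine Finset.sum_congr rfl fun j _ => ?_
    rw [Matrix.mul_apply, Finset.mul_sum]
    refine Finset.sum_congr rfl fun k _ => ?_
    rw [Matrix.mul_apply, Finset.mul_sum, Finset.mul_sum]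
    refine Finset.sum_congr rfl fun l _ => ?_
    ring
  unfold Matrix.trace
  simp only [Matrix.diag_apply]
  exact Finset.sum_congr rfl fun i _ => e1 i

omit [DecidableEq ι] in
theorem qgn_sum5 (f : ι → ι → ι → ι → ι → ℝ) :
    ∑ m, ∑ i, ∑ j, ∑ k, ∑ l, f m i j k l = ∑ i, ∑ j, ∑ k, ∑ l, ∑ m, f m i j k l := by
  rw [Finset.sum_comm]
  refine Finset.sum_congr rfl fun i _ => ?_
  rw [Finset.sum_comm]
  refine Finset.sum_congr rfl fun j _ => ?_
  rw [Finset.sum_comm]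
  refine Finset.sum_congr rfl fun k _ => ?_
  rw [Finset.sum_comm]

theorem qgn_alg1 (A W B : Matrix ι ι ℝ) (T : ι → Matrix ι ι ℝ) :
    ∑ i, ∑ j, ∑ k, ∑ l, (B j k * B l i) * (W i j * (-(A ^ 2) k l) + W k l * (-(A ^ 2) i j) +
      ∑ m, T m i j * T m k l) =
    -2 * (A * A * B * W * B).trace + ∑ m, (T m * B * T m * B).trace := by
  have e1 : (∑ m, (T m * B * T m * B).trace) =
      ∑ i, ∑ j, ∑ k, ∑ l, ∑ m, (B j k * B l i) * (T m i j * T m k l) := by
    rw [← qgn_sum5]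
    exact Finset.sum_congr rfl fun m _ => qgn_tr4 _ _ _
  have e2 : (A * A * B * W * B).trace = ∑ i, ∑ j, ∑ k, ∑ l, (B j k * B l i) *
      ((A ^ 2) i j * W k l) := by
    rw [← qgn_tr4, pow_two]
  have e3 : (A * A * B * W * B).trace = ∑ i, ∑ j, ∑ k, ∑ l, (B j k * B l i) *
      (W i j * (A ^ 2) k l) := by
    rw [← qgn_tr4, pow_two, Matrix.mul_assoc (A * A * B) W B, Matrix.trace_mul_comm]
    simp only [Matrix.mul_assoc]
  have e4 : -2 * (A * A * B * W * B).trace = -(A * A * B * W * B).trace -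
      (A * A * B * W * B).trace := by ring
  rw [e4]
  nth_rewrite 1 [e2]
  rw [e3, e1, ← Finset.sum_neg_distrib, ← Finset.sum_sub_distrib, ← Finset.sum_add_distrib]
  refine Finset.sum_congr rfl fun i _ => ?_
  rw [← Finset.sum_neg_distrib, ← Finset.sum_sub_distrib, ← Finset.sum_add_distrib]
  refine Finset.sum_congr rfl fun j _ => ?_
  rw [← Finset.sum_neg_distrib, ← Finset.sum_sub_distrib, ← Finset.sum_add_distrib]
  refine Finset.sum_congr rfl fun k _ => ?_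
  rw [← Finset.sum_neg_distrib, ← Finset.sum_sub_distrib, ← Finset.sum_add_distrib]
  refine Finset.sum_congr rfl fun l _ => ?_
  rw [← Finset.mul_sum]
  ring

omit [DecidableEq ι] in
theorem qgn_alg2 (A W P : Matrix ι ι ℝ) (AA : Matrix ι ι ℝ) (T : ι → Matrix ι ι ℝ) (v : ι → ℝ)
    (hAA : ∀ i j, AA i j = ∑ k, A k i * A k j)
    (hT : ∀ k i j, T k i j = T k j i) :
    ∑ i, ∑ j, (W i j * (∑ k, P i k * P j k) + (v i * v j) * (-AA i j) +
      ∑ k, T k i j * (v i * P j k + v j * P i k)) =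
    -(∑ i, (∑ j, A i j * v j) ^ 2) + 2 * (∑ k, ∑ i, (∑ j, T k i j * v j) * P i k) +
      ∑ k, ∑ i, ∑ j, W i j * (P i k * P j k) := by
  have e1 : (∑ i, (∑ j, A i j * v j) ^ 2) = ∑ i, ∑ j, (v i * v j) * AA i j := by
    have : ∀ k, (∑ j, A k j * v j) ^ 2 = ∑ i, ∑ j, (v i * v j) * (A k i * A k j) := by
      intro k
      rw [pow_two, Finset.sum_mul_sum]
      refine Finset.sum_congr rfl fun i _ => Finset.sum_congr rfl fun j _ => ?_
      ring
    simp only [this, hAA, Finset.mul_sum]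
    rw [Finset.sum_comm]
    refine Finset.sum_congr rfl fun i _ => ?_
    rw [Finset.sum_comm]
  have e2 : (∑ k, ∑ i, ∑ j, W i j * (P i k * P j k)) = ∑ i, ∑ j, W i j * ∑ k, P i k * P j k := by
    rw [Finset.sum_comm]
    refine Finset.sum_congr rfl fun i _ => ?_
    rw [Finset.sum_comm]
    refine Finset.sum_congr rfl fun j _ => ?_
    rw [Finset.mul_sum]
  have e3 : (∑ k, ∑ i, (∑ j, T k i j * v j) * P i k) = ∑ i, ∑ j, ∑ k, T k i j * (v j * P i k) := by
    rw [Finset.sum_comm]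
    refine Finset.sum_congr rfl fun i _ => ?_
    rw [Finset.sum_comm]
    refine Finset.sum_congr rfl fun k _ => ?_
    rw [Finset.sum_mul]
    refine Finset.sum_congr rfl fun j _ => ?_
    ring
  have e4 : (∑ k, ∑ i, (∑ j, T k i j * v j) * P i k) = ∑ i, ∑ j, ∑ k, T k i j * (v i * P j k) := by
    rw [e3, Finset.sum_comm]
    refine Finset.sum_congr rfl fun i _ => Finset.sum_congr rfl fun j _ =>
      Finset.sum_congr rfl fun k _ => ?_
    rw [hT k j i]
  have e5 : 2 * (∑ k, ∑ i, (∑ j, T k i j * v j) * P i k) =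
      (∑ i, ∑ j, ∑ k, T k i j * (v j * P i k)) + ∑ i, ∑ j, ∑ k, T k i j * (v i * P j k) := by
    rw [two_mul]
    nth_rewrite 1 [e3]
    rw [e4]
  rw [e1, e2, e5, ← Finset.sum_neg_distrib, ← Finset.sum_add_distrib, ← Finset.sum_add_distrib,
    ← Finset.sum_add_distrib]
  refine Finset.sum_congr rfl fun i _ => ?_
  rw [← Finset.sum_neg_distrib, ← Finset.sum_add_distrib, ← Finset.sum_add_distrib,
    ← Finset.sum_add_distrib]
  refine Finset.sum_congr rfl fun j _ => ?_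
  have : (∑ k, T k i j * (v i * P j k + v j * P i k)) =
      (∑ k, T k i j * (v j * P i k)) + ∑ k, T k i j * (v i * P j k) := by
    rw [← Finset.sum_add_distrib]
    refine Finset.sum_congr rfl fun k _ => ?_
    ring
  rw [this]
  ring

end alg

variable {E : Type} [NormedAddCommGroup E] [InnerProductSpace ℝ E]
    [FiniteDimensional ℝ E] [MeasurableSpace E] [BorelSpace E]

/-- the generator only depends on the values for positive times -/
theorem qgn_congr {ι : Type} [Fintype ι] (b : OrthonormalBasis ι ℝ E) (U : E → ℝ)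
    {F G : ℝ → E → ℝ} (h : ∀ s θ, 0 ≤ s → F s θ = G s θ) {s : ℝ} (hs : 0 < s) (θ : E) :
    gen b U F s θ = gen b U G s θ := by
  have e1 : F s = G s := funext fun θ => h s θ hs.le
  have e2 : deriv (fun r => F r θ) s = deriv (fun r => G r θ) s := by
    refine Filter.EventuallyEq.deriv_eq ?_
    filter_upwards [lt_mem_nhds hs] with r hr
    exact h r θ (le_of_lt hr)
  unfold gen
  rw [e1, e2]

theorem qgn_const {ι : Type} [Fintype ι] (b : OrthonormalBasis ι ℝ E) (U : E → ℝ)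
    (c s : ℝ) (θ : E) : gen b U (fun _ _ => c) s θ = 0 := by
  unfold gen D
  simp

omit [FiniteDimensional ℝ E] [MeasurableSpace E] [BorelSpace E] in
theorem qgn_D0 (e : E) (c : ℝ) (θ : E) : D e (fun _ : E => c) θ = 0 := by
  unfold D
  simp

theorem qgn_diff (h1 : RGCStmt E) {F : ℝ → E → ℝ} (hF : RG F) {s : ℝ} (hs : 0 < s) (θ : E) :
    DifferentiableAt ℝ (F s) θ :=
  ((h1.2.2.2.2.2.1 F hF s hs).2.1.differentiable (by norm_num)).differentiableAt

theorem qgn_Dadd (h1 : RGCStmt E) {F G : ℝ → E → ℝ} (hF : RG F) (hG : RG G) {s : ℝ} (hs : 0 < s)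
    (e θ : E) : D e (fun θ => F s θ + G s θ) θ = D e (F s) θ + D e (G s) θ := by
  have := fderiv_fun_add (qgn_diff h1 hF hs θ) (qgn_diff h1 hG hs θ)
  unfold D
  rw [this]
  rfl

theorem qgn_Dmul (h1 : RGCStmt E) {F G : ℝ → E → ℝ} (hF : RG F) (hG : RG G) {s : ℝ} (hs : 0 < s)
    (e θ : E) : D e (fun θ => F s θ * G s θ) θ = F s θ * D e (G s) θ + G s θ * D e (F s) θ := by
  have := fderiv_fun_mul (qgn_diff h1 hF hs θ) (qgn_diff h1 hG hs θ)
  unfold D
  rw [this]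
  rfl

theorem qgn_Dsum (h1 : RGCStmt E) {κ : Type} (S : Finset κ) {F : κ → ℝ → E → ℝ}
    (h : ∀ k, RG (F k)) {s : ℝ} (hs : 0 < s) (e θ : E) :
    D e (fun θ => ∑ k ∈ S, F k s θ) θ = ∑ k ∈ S, D e (F k s) θ := by
  have := fderiv_fun_sum (u := S) (fun k _ => qgn_diff h1 (h k) hs θ)
  unfold D
  rw [this]
  simp

/-- constant multiples -/
theorem qgn_cmul (h1 : RGCStmt E) {F : ℝ → E → ℝ} (hF : RG F) (c : ℝ) {ι : Type} [Fintype ι]
    (b : OrthonormalBasis ι ℝ E) (U : E → ℝ) {s : ℝ} (hs : 0 < s) (e θ : E) :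
    RG (fun s θ => c * F s θ) ∧ gen b U (fun s θ => c * F s θ) s θ = c * gen b U F s θ ∧
    D e (fun θ => c * F s θ) θ = c * D e (F s) θ := by
  refine ⟨h1.2.2.1 _ _ (h1.1 c) hF, ?_, ?_⟩
  · have := (h1.2.2.2.2.1 (fun _ _ => c) F U (h1.1 c) hF ι b s θ hs).2
    rw [this, qgn_const]
    simp [qgn_D0]
  · rw [qgn_Dmul h1 (h1.1 c) hF hs e θ, qgn_D0]
    ring

/-- third moments are symmetric in the last two slots -/
theorem qgn_tsym {ι : Type} [Fintype ι] (b : OrthonormalBasis ι ℝ E) (V : E → ℝ) (k i j : ι) :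
    tm b V k i j = tm b V k j i := by
  unfold tm t3
  simp only [Matrix.of_apply]
  exact integral_congr_ae (Eventually.of_forall fun x => by ring)

/-- the mean of a linear function along the channel -/
theorem qgn_mn (hPWB : PWBStmt E) (hRGC : RGCStmt E) (hRGP : RGPStmt E) {U : E → ℝ} {t : ℝ}
    (hU : PP U t) {ι : Type} [Fintype ι] (b : OrthonormalBasis ι ℝ E) (j : ι) :
    RG (fun r θ => mn (pw U r θ) (b j)) ∧
    ∀ (r : ℝ) (θ : E), 0 < r → gen b U (fun r θ => mn (pw U r θ) (b j)) r θ = 0 ∧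
      ∀ k, D (b k) (fun θ => mn (pw U r θ) (b j)) θ = cm b (pw U r θ) j k := by
  obtain ⟨h1, h2, h3⟩ := hRGP U t hU (li (b j)) (trp_li _)
  have hcg : ∀ s θ, 0 ≤ s → pm U s θ (li (b j)) = mn (pw U s θ) (b j) := fun s θ hs =>
    ((hPWB U t hU).2.1 s θ hs (li (b j))).symm
  refine ⟨hRGC.2.2.2.2.2.2 _ _ h1 hcg, fun r θ hr => ⟨?_, fun k => ?_⟩⟩
  · rw [← qgn_congr b U hcg hr θ]
    exact h3 ι b r θ hr
  · have e1 : (fun θ => mn (pw U r θ) (b j)) = fun θ => pm U r θ (li (b j)) :=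
      funext fun θ => (hcg r θ hr.le).symm
    rw [e1]
    exact (h2 r θ (b k) hr.le).2

/-- the linear part along the channel -/
theorem qgn_v (hPWB : PWBStmt E) (hRGC : RGCStmt E) (hRGP : RGPStmt E) {U : E → ℝ} {t : ℝ}
    (hU : PP U t) {ι : Type} [Fintype ι] (b : OrthonormalBasis ι ℝ E) (B : Matrix ι ι ℝ)
    (c : ι → ℝ) (i : ι) :
    RG (fun r θ => qv b B c (pw U r θ) i) ∧
    ∀ (r : ℝ) (θ : E), 0 < r → gen b U (fun r θ => qv b B c (pw U r θ) i) r θ = 0 ∧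
      ∀ k, D (b k) (fun θ => qv b B c (pw U r θ) i) θ = (B * cm b (pw U r θ)) i k := by
  have hm := fun j => qgn_mn hPWB hRGC hRGP hU b j
  have hmul : ∀ j, RG (fun r θ => B i j * mn (pw U r θ) (b j)) := fun j =>
    (qgn_cmul hRGC (hm j).1 (B i j) b U one_pos 0 0).1
  have hsum : RG (fun r θ => ∑ j, B i j * mn (pw U r θ) (b j)) :=
    evj_sum hRGC Finset.univ hmul
  have hqv : (fun r θ => qv b B c (pw U r θ) i) =
      fun r θ => c i + ∑ j, B i j * mn (pw U r θ) (b j) := rfl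
  rw [hqv]
  refine ⟨hRGC.2.1 _ _ (hRGC.1 _) hsum, fun r θ hr => ⟨?_, fun k => ?_⟩⟩
  · rw [(hRGC.2.2.2.2.1 (fun _ _ => c i) (fun r θ => ∑ j, B i j * mn (pw U r θ) (b j)) U
      (hRGC.1 _) hsum ι b r θ hr).1, qgn_const, evj_gsum hRGC U b Finset.univ hmul hr θ, zero_add]
    refine Finset.sum_eq_zero fun j _ => ?_
    rw [(qgn_cmul hRGC (hm j).1 (B i j) b U hr (b j) θ).2.1, ((hm j).2 r θ hr).1, mul_zero]
  · have e : (fun θ => qv b B c (pw U r θ) i) =
      fun θ => (fun (_ : ℝ) (_ : E) => c i) r θ +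
        (fun r θ => ∑ j, B i j * mn (pw U r θ) (b j)) r θ := rfl
    rw [e, qgn_Dadd hRGC (hRGC.1 _) hsum hr, Matrix.mul_apply]
    have e2 : D (b k) ((fun (_ : ℝ) (_ : E) => c i) r) θ = 0 := qgn_D0 _ _ _
    have e3 : D (b k) ((fun r θ => ∑ j, B i j * mn (pw U r θ) (b j)) r) θ =
        ∑ j, D (b k) (fun θ => B i j * mn (pw U r θ) (b j)) θ :=
      qgn_Dsum hRGC Finset.univ hmul hr (b k) θ
    rw [e2, e3, zero_add]
    refine Finset.sum_congr rfl fun j _ => ?_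
    rw [(qgn_cmul hRGC (hm j).1 (B i j) b U hr (b k) θ).2.2, ((hm j).2 r θ hr).2 k]

/-- module QGN -/
theorem qgn_thm (hPWB : PWBStmt E) (hRGC : RGCStmt E) (hRGP : RGPStmt E) (hAAG : AAGStmt E) :
    QGNStmt E := by
  intro U t hU ι _ _ b Y B c hB
  set W : ι → ι → ℝ → E → ℝ := fun i j r θ =>
    (cm b (pw U r θ) + Matrix.diagonal Y) i j with hW
  set v : ι → ℝ → E → ℝ := fun i r θ => qv b B c (pw U r θ) i with hv
  have hWr : ∀ i j, RG (W i j) := fun i j =>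
    hRGC.2.1 _ _ (hAAG U t hU ι b i j).1 (hRGC.1 (Matrix.diagonal Y i j))
  have hWg : ∀ i j r θ, 0 < r → gen b U (W i j) r θ = -((cm b (pw U r θ)) ^ 2) i j := by
    intro i j r θ hr
    have := (hRGC.2.2.2.2.1 _ _ U (hAAG U t hU ι b i j).1 (hRGC.1 (Matrix.diagonal Y i j)) ι b
      r θ hr).1
    rw [qgn_const, add_zero, (hAAG U t hU ι b i j).2.1 r θ hr] at this
    exact this
  have hWD : ∀ i j r θ k, 0 < r → D (b k) (W i j r) θ = tm b (pw U r θ) k i j := by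
    intro i j r θ k hr
    have := qgn_Dadd hRGC (hAAG U t hU ι b i j).1 (hRGC.1 (Matrix.diagonal Y i j)) hr (b k) θ
    have e2 : D (b k) ((fun (_ : ℝ) (_ : E) => Matrix.diagonal Y i j) r) θ = 0 := qgn_D0 _ _ _
    rw [e2, add_zero] at this
    have e3 : D (b k) ((fun s θ => cm b (pw U s θ) i j) r) θ = t3 (pw U r θ) (b k) (b i) (b j) :=
      (hAAG U t hU ι b i j).2.2 r θ (b k) hr.le
    rw [e3] at this
    exact this
  have hvr : ∀ i, RG (v i) := fun i => (qgn_v hPWB hRGC hRGP hU b B c i).1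
  have hvg : ∀ i r θ, 0 < r → gen b U (v i) r θ = 0 := fun i r θ hr =>
    ((qgn_v hPWB hRGC hRGP hU b B c i).2 r θ hr).1
  have hvD : ∀ i r θ k, 0 < r → D (b k) (v i r) θ = (B * cm b (pw U r θ)) i k :=
    fun i r θ k hr => ((qgn_v hPWB hRGC hRGP hU b B c i).2 r θ hr).2 k
  -- first part
  set F1 : ι → ι → ι → ι → ℝ → E → ℝ := fun i j k l r θ =>
    (B j k * B l i) * (W i j r θ * W k l r θ) with hF1
  have hWW : ∀ i j k l, RG (fun r θ => W i j r θ * W k l r θ) := fun i j k l =>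
    hRGC.2.2.1 _ _ (hWr i j) (hWr k l)
  have hF1r : ∀ i j k l, RG (F1 i j k l) := fun i j k l =>
    (qgn_cmul hRGC (hWW i j k l) (B j k * B l i) b U one_pos 0 0).1
  have hF1g : ∀ i j k l r θ, 0 < r → gen b U (F1 i j k l) r θ =
      (B j k * B l i) * (W i j r θ * (-(cm b (pw U r θ) ^ 2) k l) +
        W k l r θ * (-(cm b (pw U r θ) ^ 2) i j) +
        ∑ m, tm b (pw U r θ) m i j * tm b (pw U r θ) m k l) := by
    intro i j k l r θ hr
    rw [(qgn_cmul hRGC (hWW i j k l) (B j k * B l i) b U hr 0 θ).2.1,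
      (hRGC.2.2.2.2.1 _ _ U (hWr i j) (hWr k l) ι b r θ hr).2, hWg i j r θ hr, hWg k l r θ hr]
    congr 2
    refine Finset.sum_congr rfl fun m _ => ?_
    rw [hWD i j r θ m hr, hWD k l r θ m hr]
  -- second part
  set F2 : ι → ι → ℝ → E → ℝ := fun i j r θ => W i j r θ * (v i r θ * v j r θ) with hF2
  have hvv : ∀ i j, RG (fun r θ => v i r θ * v j r θ) := fun i j =>
    hRGC.2.2.1 _ _ (hvr i) (hvr j)
  have hF2r : ∀ i j, RG (F2 i j) := fun i j => hRGC.2.2.1 _ _ (hWr i j) (hvv i j)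
  have hF2g : ∀ i j r θ, 0 < r → gen b U (F2 i j) r θ =
      W i j r θ * (∑ k, (B * cm b (pw U r θ)) i k * (B * cm b (pw U r θ)) j k) +
      (v i r θ * v j r θ) * (-(cm b (pw U r θ) ^ 2) i j) +
      ∑ k, tm b (pw U r θ) k i j * (v i r θ * (B * cm b (pw U r θ)) j k +
        v j r θ * (B * cm b (pw U r θ)) i k) := by
    intro i j r θ hr
    rw [(hRGC.2.2.2.2.1 _ _ U (hWr i j) (hvv i j) ι b r θ hr).2, hWg i j r θ hr,
      (hRGC.2.2.2.2.1 _ _ U (hvr i) (hvr j) ι b r θ hr).2, hvg i r θ hr, hvg j r θ hr]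
    have e1 : (∑ k, D (b k) (v i r) θ * D (b k) (v j r) θ) =
        ∑ k, (B * cm b (pw U r θ)) i k * (B * cm b (pw U r θ)) j k :=
      Finset.sum_congr rfl fun k _ => by rw [hvD i r θ k hr, hvD j r θ k hr]
    have e2 : (∑ k, D (b k) (W i j r) θ * D (b k) ((fun r θ => v i r θ * v j r θ) r) θ) =
        ∑ k, tm b (pw U r θ) k i j * (v i r θ * (B * cm b (pw U r θ)) j k +
        v j r θ * (B * cm b (pw U r θ)) i k) := by
      refine Finset.sum_congr rfl fun k _ => ?_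
      have e3 : D (b k) ((fun r θ => v i r θ * v j r θ) r) θ =
          v i r θ * D (b k) (v j r) θ + v j r θ * D (b k) (v i r) θ :=
        qgn_Dmul hRGC (hvr i) (hvr j) hr (b k) θ
      rw [e3, hWD i j r θ k hr, hvD i r θ k hr, hvD j r θ k hr]
    rw [e1, e2]
    ring
  have hPh : (fun r θ => Ph (cm b (pw U r θ) + Matrix.diagonal Y) B (qv b B c (pw U r θ))) =
      fun r θ => (∑ i, ∑ j, ∑ k, ∑ l, F1 i j k l r θ) + ∑ i, ∑ j, F2 i j r θ := by
    funext r θ
    unfold Ph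
    congr 1
    refine Finset.sum_congr rfl fun i _ => Finset.sum_congr rfl fun j _ =>
      Finset.sum_congr rfl fun k _ => Finset.sum_congr rfl fun l _ => ?_
    simp only [hF1, hW]
    ring
  have r1 : ∀ i j k, RG (fun r θ => ∑ l, F1 i j k l r θ) := fun i j k =>
    evj_sum hRGC Finset.univ fun l => hF1r i j k l
  have r2 : ∀ i j, RG (fun r θ => ∑ k, ∑ l, F1 i j k l r θ) := fun i j =>
    evj_sum hRGC Finset.univ fun k => r1 i j k
  have r3 : ∀ i, RG (fun r θ => ∑ j, ∑ k, ∑ l, F1 i j k l r θ) := fun i =>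
    evj_sum hRGC Finset.univ fun j => r2 i j
  have r4 : RG (fun r θ => ∑ i, ∑ j, ∑ k, ∑ l, F1 i j k l r θ) :=
    evj_sum hRGC Finset.univ fun i => r3 i
  have r5 : ∀ i, RG (fun r θ => ∑ j, F2 i j r θ) := fun i =>
    evj_sum hRGC Finset.univ fun j => hF2r i j
  have r6 : RG (fun r θ => ∑ i, ∑ j, F2 i j r θ) := evj_sum hRGC Finset.univ fun i => r5 i
  rw [hPh]
  refine ⟨hRGC.2.1 _ _ r4 r6, fun r θ hr => ?_⟩
  rw [(hRGC.2.2.2.2.1 _ _ U r4 r6 ι b r θ hr).1]
  have g1 : gen b U (fun r θ => ∑ i, ∑ j, ∑ k, ∑ l, F1 i j k l r θ) r θ =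
      ∑ i, ∑ j, ∑ k, ∑ l, gen b U (F1 i j k l) r θ := by
    rw [evj_gsum hRGC U b Finset.univ r3 hr θ]
    refine Finset.sum_congr rfl fun i _ => ?_
    rw [evj_gsum hRGC U b Finset.univ (r2 i) hr θ]
    refine Finset.sum_congr rfl fun j _ => ?_
    rw [evj_gsum hRGC U b Finset.univ (r1 i j) hr θ]
    refine Finset.sum_congr rfl fun k _ => ?_
    rw [evj_gsum hRGC U b Finset.univ (hF1r i j k) hr θ]
  have g2 : gen b U (fun r θ => ∑ i, ∑ j, F2 i j r θ) r θ = ∑ i, ∑ j, gen b U (F2 i j) r θ := by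
    rw [evj_gsum hRGC U b Finset.univ r5 hr θ]
    refine Finset.sum_congr rfl fun i _ => ?_
    rw [evj_gsum hRGC U b Finset.univ (hF2r i) hr θ]
  rw [g1, g2]
  have g3 : (∑ i, ∑ j, ∑ k, ∑ l, gen b U (F1 i j k l) r θ) = _ :=
    Finset.sum_congr rfl fun i _ => Finset.sum_congr rfl fun j _ =>
      Finset.sum_congr rfl fun k _ => Finset.sum_congr rfl fun l _ => hF1g i j k l r θ hr
  have g4 : (∑ i, ∑ j, gen b U (F2 i j) r θ) = _ :=
    Finset.sum_congr rfl fun i _ => Finset.sum_congr rfl fun j _ => hF2g i j r θ hr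
  rw [g3, g4]
  have a1 := qgn_alg1 (cm b (pw U r θ)) (cm b (pw U r θ) + Matrix.diagonal Y) B
    (tm b (pw U r θ))
  have a2 := qgn_alg2 (cm b (pw U r θ)) (cm b (pw U r θ) + Matrix.diagonal Y)
    (B * cm b (pw U r θ)) (cm b (pw U r θ) ^ 2) (tm b (pw U r θ)) (fun i => v i r θ)
    (fun i j => by
      rw [pow_two, Matrix.mul_apply]
      refine Finset.sum_congr rfl fun k _ => ?_
      rw [evj_sym b (pw U r θ) k i]) (fun k i j => qgn_tsym b _ k i j)
  have a1' : (∑ i, ∑ j, ∑ k, ∑ l, (B j k * B l i) * (W i j r θ * (-(cm b (pw U r θ) ^ 2) k l) +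
        W k l r θ * (-(cm b (pw U r θ) ^ 2) i j) +
        ∑ m, tm b (pw U r θ) m i j * tm b (pw U r θ) m k l)) = _ := a1
  rw [a1']
  have a2' : (∑ i, ∑ j, (W i j r θ * (∑ k, (B * cm b (pw U r θ)) i k *
      (B * cm b (pw U r θ)) j k) + (v i r θ * v j r θ) * (-(cm b (pw U r θ) ^ 2) i j) +
      ∑ k, tm b (pw U r θ) k i j * (v i r θ * (B * cm b (pw U r θ)) j k +
        v j r θ * (B * cm b (pw U r θ)) i k))) = _ := a2
  rw [a2']
  unfold GE
  simp only [hv]
  ring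

end Pool.Agent.H59.KA
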