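import Pool.Agent.H33.KG.BAS
import Pool.Agent.H2.KG.IMP
import Pool.Agent.H2.KG.EIG
import Pool.Agent.H62.KG.ZSM
import Pool.Agent.H85.KG.PWB
import Pool.Agent.H85.KG.PMG
import Pool.Agent.H83.KG.RGC
import Pool.Agent.H85.KG.RGP
import Pool.Agent.H72.KG.BAY
import Pool.Agent.H85.KG.DYN
import Pool.Agent.H34.KG.CVR
import Pool.Agent.H88.KG.COV
import Pool.Agent.H85.KG.AAG
import Pool.Agent.H87.KP.DIA
import Pool.Agent.H17.KP.T3S
import Pool.Agent.H49.KP.QCA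
import Pool.Agent.H59.KP.EVV
import Pool.Agent.H87.KA.QGR
import Pool.Agent.H88.KA.QDL
import Pool.Agent.H49.KA.QCB
import Pool.Agent.H80.KA.QAF
import Pool.Agent.H87.KA.QWH
import Pool.Agent.H58.KA.QS0
import Pool.Agent.H24.KA.QQB
import Pool.Agent.H51.KA.QPH
import Pool.Agent.H59.KA.QGN
import Pool.Agent.H12.KA.QGB
import Pool.Agent.H33.KA.QMO
import Pool.Agent.H32.KA.QEF
import Pool.Agent.H32.KA.QEV
import Pool.Agent.H27.KA.QST
import Pool.Agent.H75.KA.QIN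
import Pool.Agent.H24.KA.QFN

/-!
# Project KA: the assembly of Part A (the quadratic Poincare constant is universal)
-/

set_option autoImplicit false
set_option linter.unusedSectionVars false

open MeasureTheory Set Filter Topology
open scoped ContDiff

namespace Pool.Agent.H59.KA

open Pool.Agent.H84 hiding cv mn
open Pool.Agent.H84.Sym Pool.Agent.H84.Sym.P2x Pool.Agent.H19.KL
open Pool.Agent.H73.KG Pool.Agent.H20.KH Pool.Agent.H78.KP
open Pool.Agent.H85.KG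

theorem aQPH : QPHStmt := qph_thm

section basic

variable (E : Type) [NormedAddCommGroup E] [InnerProductSpace ℝ E]
    [FiniteDimensional ℝ E] [MeasurableSpace E] [BorelSpace E]

theorem aBAS : BASStmt E := bas_thm E
theorem aIMP : IMPStmt E := imp_thm E
theorem aEIG : EIGStmt E := eig_thm E
theorem aZSM : ZSMStmt E := zsm_thm E
theorem aPWB : PWBStmt E := pwb_thm E
theorem aPMG : PMGStmt E := pmg_thm E (aBAS E) (aZSM E)
theorem aRGC : RGCStmt E := rgc_thm E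
theorem aRGP : RGPStmt E := rgp_thm E (aZSM E) (aPMG E)
theorem aBAY : BAYStmt E := bay_thm E (aPWB E) (aPMG E) (aRGP E)
theorem aDYN : DYNStmt E := dyn_thm E (aRGC E) (aRGP E) (aBAY E)
theorem aCVR : CVRStmt E := cvr_thm E (aPWB E) (aRGC E) (aRGP E)
theorem aCOV : COVStmt E := cov_thm E (aPWB E) (aRGC E) (aRGP E) (aDYN E) (aBAY E) (aCVR E)
theorem aAAG : AAGStmt E := aag_thm E (aRGC E) (aRGP E) (aPWB E)

theorem aMQB : MQBStmt E := Pool.Agent.H59.KP.mqb_thm (aBAS E)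
theorem aDIA : DIAStmt E := dia_thm
theorem aT3S : T3SStmt E := t3s_thm E
theorem aQCA : QCAStmt E := qca_thm E (aMQB E) (aPWB E) (aBAS E)

theorem aQGR : QGRStmt E := qgr_thm
theorem aQDL : QDLStmt E := qdl_thm E (aDIA E)
theorem aQCB : QCBStmt E := qcb_thm E
theorem aQAF : QAFStmt E := qaf_thm E (aDIA E) (aQDL E)
theorem aQWH : QWHStmt E := qwh_thm (aDIA E) (aEIG E) (aQCB E) (aQDL E)
theorem aQS0 : QS0Stmt E := qs0_thm E (aQWH E) (aQGR E) (aIMP E) (aBAS E)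
theorem aQQB : QQBStmt E := qqb_thm E (aBAS E) aQPH
theorem aQGN : QGNStmt E := qgn_thm (aPWB E) (aRGC E) (aRGP E) (aAAG E)
theorem aQGB : QGBStmt E := qgb_thm E
theorem aQMO : QMOStmt E := Pool.Agent.H33.KA.qmo_thm (aPWB E) (aRGC E) (aRGP E) (aBAY E)
  (aDYN E) (aAAG E) (aMQB E)
theorem aQEF : QEFStmt E := Pool.Agent.H32.KA.qef_thm (aQGN E) (aQGB E) (aQMO E) aQPH (aQCA E)
  (aT3S E) (aDYN E) (aBAY E) (aBAS E) (aPWB E) (aRGC E) (aRGP E)
theorem aQEV : QEVStmt E := Pool.Agent.H32.KA.qev_thm (aQGR E) (aQMO E) (aQCA E) (aCOV E)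
  (aBAS E) (aBAY E) (aCVR E) (aPWB E) (aRGC E)
theorem aQST : QSTStmt E := qst_thm E (aQWH E) (aQAF E) (aQEF E) (aQEV E) aQPH (aQGN E) (aQGR E)
  (aPWB E) (aBAY E) (aCVR E) (aRGC E) (aBAS E)

end basic

theorem aQIN : QINStmt := Pool.Agent.H75.KA.qin_thm

/-- Part A: the variance of quadratic polynomials -/
theorem aQFN : QFNStmt := qfn_thm (fun E _ _ _ _ _ => aBAS E) aQPH (fun E _ _ _ _ _ => aQST E)
  aQIN (fun E _ _ _ _ _ => aQQB E) (fun E _ _ _ _ _ => aQS0 E)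

/-- Part A: the quadratic Poincare constant is universal -/
theorem aQKF : QKFStmt := qfn_kf (fun E _ _ _ _ _ => aBAS E) aQPH (fun E _ _ _ _ _ => aQST E)
  aQIN (fun E _ _ _ _ _ => aQQB E) (fun E _ _ _ _ _ => aQS0 E)

end Pool.Agent.H59.KA
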