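import Pool.Agent.H59.KA.Stmts
import Pool.Agent.H59.KP.EVV
import Pool.Agent.H12.KA.QGB

/-!
# Project KA, module QEV: the decrease of the variance of quadratic polynomials
-/

set_option autoImplicit false

open MeasureTheory Set Filter Topology
open scoped ContDiff

namespace Pool.Agent.H59.KA

open Pool.Agent.H84 hiding cv mn
open Pool.Agent.H84.Sym Pool.Agent.H84.Sym.P2x Pool.Agent.H19.KL
open Pool.Agent.H73.KG Pool.Agent.H20.KH Pool.Agent.H78.KP Pool.Agent.H59.KG Pool.Agent.H59.KP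

variable {E : Type} [NormedAddCommGroup E] [InnerProductSpace ℝ E]
    [FiniteDimensional ℝ E] [MeasurableSpace E] [BorelSpace E]

/-- integrability of functions of class `GC` -/
theorem qev_int {U : E → ℝ} {t : ℝ} (hU : PP U t) {f : E → ℝ} (hf : GC f) :
    Integrable f (mu U) := by
  obtain ⟨C, hC⟩ := hU.1
  exact hf.integrable hC

/-- the covariance with a linear combination of the coordinates -/
theorem qev_lin {U : E → ℝ} {t : ℝ} (hU : PP U t) {ι : Type} [Fintype ι]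
    (b : OrthonormalBasis ι ℝ E) {f : E → ℝ} (hf : GC f) (w : ι → ℝ) :
    cv U f (li (∑ i, w i • b i)) = ∑ i, w i * cv U f (li (b i)) := by
  have hli : ∀ x : E, li (∑ i, w i • b i) x = ∑ i, w i * li (b i) x := by
    intro x
    unfold li
    rw [sum_inner]
    exact Finset.sum_congr rfl fun i _ => by rw [inner_smul_left]; simp
  unfold cv
  have h1 : ∫ x, f x * li (∑ i, w i • b i) x ∂(mu U) =
      ∑ i, w i * ∫ x, f x * li (b i) x ∂(mu U) := by
    have : ∀ x, f x * li (∑ i, w i • b i) x = ∑ i, w i * (f x * li (b i) x) := by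
      intro x
      rw [hli, Finset.mul_sum]
      exact Finset.sum_congr rfl fun i _ => by ring
    simp only [this]
    rw [integral_finsetSum _ fun i _ =>
      (qev_int hU (GC.mul hf (trp_li (b i)))).const_mul (w i)]
    exact Finset.sum_congr rfl fun i _ => integral_const_mul _ _
  have h2 : ∫ x, li (∑ i, w i • b i) x ∂(mu U) = ∑ i, w i * ∫ x, li (b i) x ∂(mu U) := by
    simp only [hli]
    rw [integral_finsetSum _ fun i _ => (qev_int hU (trp_li (b i))).const_mul (w i)]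
    exact Finset.sum_congr rfl fun i _ => integral_const_mul _ _
  rw [h1, h2, Finset.mul_sum, ← Finset.sum_sub_distrib]
  exact Finset.sum_congr rfl fun i _ => by ring

/-- covariances with the coordinates against the variance -/
theorem qev_dual (hBAS : BASStmt E) {U : E → ℝ} {t : ℝ} (hU : PP U t) {ι : Type} [Fintype ι]
    (b : OrthonormalBasis ι ℝ E) {f : E → ℝ} (hf : GC f) {a : ℝ} (ha : 0 ≤ a) (hc : CovLe U a) :
    ∑ i, (cv U f (li (b i))) ^ 2 ≤ a * cv U f f := by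
  set w : ι → ℝ := fun i => cv U f (li (b i)) with hw
  set e : E := ∑ i, w i • b i with he
  have h1 : cv U f (li e) = ∑ i, (w i) ^ 2 := by
    rw [he, qev_lin hU b hf w]
    exact Finset.sum_congr rfl fun i _ => by rw [hw]; ring
  have h2 := (hBAS.2.2.2.1 U t hU f (li e) hf (trp_li e)).1
  have hn : ‖e‖ ^ 2 = ∑ i, (w i) ^ 2 := by
    rw [he, ← real_inner_self_eq_norm_sq, b.orthonormal.inner_sum]
    exact Finset.sum_congr rfl fun i _ => by simp [pow_two]
  have h3 := hc e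
  have h4 := (hBAS.2.2.2.1 U t hU f f hf hf).2.1
  rw [h1] at h2
  rw [hn] at h3
  set S : ℝ := ∑ i, (w i) ^ 2 with hS
  have hS0 : 0 ≤ S := Finset.sum_nonneg fun i _ => sq_nonneg _
  rcases hS0.eq_or_lt with h0 | h0
  · rw [← h0]
    positivity
  · have h5 : S ^ 2 ≤ cv U f f * (a * S) := h2.trans (mul_le_mul_of_nonneg_left h3 h4)
    nlinarith

/-- the variance of a quadratic polynomial -/
theorem qev_var (hBAS : BASStmt E) (hQGR : QGRStmt E) {V : E → ℝ} {t : ℝ} (hV : PP V t)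
    {ι : Type} [Fintype ι] (b : OrthonormalBasis ι ℝ E) (B : Matrix ι ι ℝ) (c : ι → ℝ)
    (hB : SY B) : cv V (qf b B c) (qf b B c) ≤ 4 / t * (1 / t * (∑ i, ∑ j, (B i j) ^ 2) +
      ∑ i, (qv b B c V i) ^ 2) := by
  classical
  obtain ⟨C, hC⟩ := hV.1
  have ht : 0 < t := hC.pos
  obtain ⟨h1, h2, h3, h4⟩ := hQGR ι b B c hB
  have h5 := hBAS.2.2.1 V t hV (qf b B c) h1 h2.2 h3 (1 / t) (hBAS.2.1 V t hV)
  rw [h4 V t hV] at h5
  have hP := (hBAS.2.2.2.2.2.1 V t hV ι b).2 (1 / t) (hBAS.2.2.2.2.1 V t hV)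
  have h6 : (B * cm b V * B).trace ≤ 1 / t * ∑ i, ∑ j, (B i j) ^ 2 := by
    have e1 : (B * cm b V * B).trace = ∑ i, ∑ k, ∑ l, cm b V k l * (B i k * B i l) := by
      unfold Matrix.trace
      simp only [Matrix.diag_apply]
      refine Finset.sum_congr rfl fun i _ => ?_
      rw [Matrix.mul_assoc, Matrix.mul_apply]
      refine Finset.sum_congr rfl fun k _ => ?_
      rw [Matrix.mul_apply, Finset.mul_sum]
      refine Finset.sum_congr rfl fun l _ => ?_
      rw [hB l i]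
      ring
    have e2 : ∀ i, ∑ k, ∑ l, cm b V k l * (B i k * B i l) ≤ 1 / t * ∑ j, (B i j) ^ 2 := by
      intro i
      have h7 := Pool.Agent.H59.KA.QGB_quad hP (fun k => B i k)
      have e3 : ∑ k, ∑ l, ((1 / t) • (1 : Matrix ι ι ℝ) - cm b V) k l * (B i k * B i l) =
          1 / t * (∑ j, (B i j) ^ 2) - ∑ k, ∑ l, cm b V k l * (B i k * B i l) := by
        have e4 : ∀ k, ∑ l, ((1 / t) • (1 : Matrix ι ι ℝ) - cm b V) k l * (B i k * B i l) =
            1 / t * (B i k) ^ 2 - ∑ l, cm b V k l * (B i k * B i l) := by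
          intro k
          simp only [Matrix.sub_apply, Matrix.smul_apply, smul_eq_mul, sub_mul,
            Finset.sum_sub_distrib]
          congr 1
          rw [Finset.sum_eq_single k]
          · rw [Matrix.one_apply_eq]
            ring
          · intro l _ hl
            rw [Matrix.one_apply_ne (Ne.symm hl)]
            ring
          · simp
        simp only [e4]
        rw [Finset.sum_sub_distrib, Finset.mul_sum]
      rw [e3] at h7
      linarith
    rw [e1, Finset.mul_sum]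
    exact Finset.sum_le_sum fun i _ => e2 i
  refine h5.trans ?_
  have h8 : 1 / t * (4 * ((B * cm b V * B).trace + ∑ i, (qv b B c V i) ^ 2)) =
      4 / t * ((B * cm b V * B).trace + ∑ i, (qv b B c V i) ^ 2) := by ring
  rw [h8]
  have : 0 < 4 / t := by positivity
  exact mul_le_mul_of_nonneg_left (by linarith) this.le

theorem qev_EXnn (U : E → ℝ) (r : ℝ) {F : E → ℝ} (hF : ∀ θ, 0 ≤ F θ) : 0 ≤ EX U r F := by
  unfold EX
  exact integral_nonneg fun x => integral_nonneg fun g => hF _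

/-- the linear part at the posterior mean -/
theorem qev_qv {ι : Type} [Fintype ι] (b : OrthonormalBasis ι ℝ E) (B : Matrix ι ι ℝ)
    (c : ι → ℝ) (U : E → ℝ) (r : ℝ) (θ : E) :
    ∑ i, (qv b B c (pw U r θ) i) ^ 2 ≤ 2 * (∑ i, (qv b B c U i) ^ 2) +
      2 * (∑ i, ∑ j, (B i j) ^ 2) * md b U r θ := by
  set δ : ι → ℝ := fun j => mn (pw U r θ) (b j) - mn U (b j) with hδ
  have h1 : ∀ i, qv b B c (pw U r θ) i = qv b B c U i + ∑ j, B i j * δ j := by
    intro i
    unfold qv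
    rw [add_assoc, ← Finset.sum_add_distrib]
    congr 1
    refine Finset.sum_congr rfl fun j _ => ?_
    rw [hδ]
    ring
  have h2 : ∀ i, (qv b B c (pw U r θ) i) ^ 2 ≤ 2 * (qv b B c U i) ^ 2 +
      2 * ((∑ j, (B i j) ^ 2) * ∑ j, (δ j) ^ 2) := by
    intro i
    rw [h1]
    have h3 : (∑ j, B i j * δ j) ^ 2 ≤ (∑ j, (B i j) ^ 2) * ∑ j, (δ j) ^ 2 :=
      Finset.sum_mul_sq_le_sq_mul_sq _ _ _
    nlinarith [sq_nonneg (qv b B c U i - ∑ j, B i j * δ j)]
  have h4 : md b U r θ = ∑ j, (δ j) ^ 2 := rfl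
  calc ∑ i, (qv b B c (pw U r θ) i) ^ 2 ≤ ∑ i, (2 * (qv b B c U i) ^ 2 +
        2 * ((∑ j, (B i j) ^ 2) * ∑ j, (δ j) ^ 2)) := Finset.sum_le_sum fun i _ => h2 i
    _ = _ := by
        rw [Finset.sum_add_distrib, ← Finset.mul_sum, ← Finset.mul_sum, ← Finset.sum_mul, h4]
        ring

/-- module QEV -/
theorem qev_thm (hBAS : BASStmt E) (hPWB : PWBStmt E) (hRGC : RGCStmt E) (hCVR : CVRStmt E)
    (hBAY : BAYStmt E) (hCOV : COVStmt E) (hQGR : QGRStmt E) (hQMO : QMOStmt E)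
    (hQCA : QCAStmt E) : QEVStmt E := by
  intro t0 ht0 ht01
  set n : ℝ := (Module.finrank ℝ E : ℝ) with hn
  set τ : ℝ := 1 / t0 with hτ
  have hn0 : 0 ≤ n := Nat.cast_nonneg _
  have hτ1 : 1 ≤ τ := by
    rw [hτ, le_div_iff₀ ht0]
    linarith
  refine ⟨2 * τ * (τ + 2) * (1 + 9 * n ^ 3 * τ ^ 3) + 16 * n ^ 3 * τ ^ 4, ?_, ?_⟩
  · have h1 : 1 ≤ τ * (τ + 2) := by nlinarith
    have h2 : 0 ≤ 9 * n ^ 3 * τ ^ 3 := by positivity
    have h3 : 0 ≤ 16 * n ^ 3 * τ ^ 4 := by positivity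
    nlinarith
  intro t ht0t ht1 U hU hcov ι _ b B c s hB hs hs1
  classical
  have ht : 0 < t := lt_of_lt_of_le ht0 ht0t
  have htτ : 1 / t ≤ τ := by
    rw [hτ]
    exact one_div_le_one_div_of_le ht0 ht0t
  have hcard : (Fintype.card ι : ℝ) = n := by
    rw [hn, Module.finrank_eq_card_basis b.toBasis]
  set q : E → ℝ := qf b B c with hq
  obtain ⟨-, hqG, -, -⟩ := hQGR ι b B c hB
  set S1 : ℝ := ∑ i, ∑ j, (B i j) ^ 2 with hS1
  set S0 : ℝ := ∑ i, (qv b B c U i) ^ 2 with hS0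
  have hS1n : 0 ≤ S1 := Finset.sum_nonneg fun i _ => Finset.sum_nonneg fun j _ => sq_nonneg _
  have hS0n : 0 ≤ S0 := Finset.sum_nonneg fun i _ => sq_nonneg _
  have hN2 : N2 B (qv b B c U) = S1 + S0 := rfl
  obtain ⟨hqdR, hmdR, hmom⟩ := hQMO U t hU ι b
  have hcvR : RG (fun r θ => cv (pw U r θ) q q) := hCVR U t hU q q hqG hqG
  set C : ℝ := 2 * τ * (τ + 2) * (1 + 9 * n ^ 3 * τ ^ 3) + 16 * n ^ 3 * τ ^ 4 with hCdef
  -- the bound at time `r`
  have key : ∀ r ∈ Ioo 0 s, EX U r (fun θ => ∑ i, cv (pw U r θ) q (li (b i)) *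
      cv (pw U r θ) q (li (b i))) ≤ cv U q q + C * Real.sqrt s * (S1 + S0) := by
    intro r hr
    have hr0 : 0 < r := hr.1
    have hr1 : r ≤ 1 := (hr.2.le).trans hs1
    set ρ : ℝ := Real.sqrt r with hρ
    have hρ0 : 0 < ρ := Real.sqrt_pos.2 hr0
    have hρ2 : ρ ^ 2 = r := Real.sq_sqrt hr0.le
    have hρ1 : ρ ≤ 1 := Real.sqrt_le_one.2 hr1
    obtain ⟨-, hadd, hmul, hcst, hmono, -, -⟩ := hBAY U t hU r hr0.le
    have hGqd : GC (fun θ => qd b U r θ) := (hRGC.2.2.2.2.2.1 _ hqdR r hr0).1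
    have hGmd : GC (fun θ => md b U r θ) := (hRGC.2.2.2.2.2.1 _ hmdR r hr0).1
    have hGcv : GC (fun θ => cv (pw U r θ) q q) := (hRGC.2.2.2.2.2.1 _ hcvR r hr0).1
    have hGw : ∀ i, GC (fun θ => cv (pw U r θ) q (li (b i))) := fun i =>
      (hRGC.2.2.2.2.2.1 _ (hCVR U t hU q (li (b i)) hqG (trp_li _)) r hr0).1
    have hGsum : GC (fun θ => ∑ i, cv (pw U r θ) q (li (b i)) * cv (pw U r θ) q (li (b i))) :=
      GC.sum (s := Finset.univ)
        (F := fun i θ => cv (pw U r θ) q (li (b i)) * cv (pw U r θ) q (li (b i)))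
        fun i => GC.mul (hGw i) (hGw i)
    set K1 : ℝ := 2 * τ * (τ * S1 + 2 * S0) with hK1
    set K2 : ℝ := 16 * n * τ ^ 2 * S1 with hK2
    have hK1n : 0 ≤ K1 := by positivity
    have hK2n : 0 ≤ K2 := by positivity
    have hG2 : GC (fun θ => K1 / ρ * qd b U r θ) := GC.mul (GC.const _) hGqd
    have hG3 : GC (fun θ => K2 * md b U r θ) := GC.mul (GC.const _) hGmd
    have hG4 : GC (fun θ => K2 * md b U r θ + K1 * ρ) := GC.add hG3 (GC.const _)
    have hG5 : GC (fun θ => K1 / ρ * qd b U r θ + (K2 * md b U r θ + K1 * ρ)) :=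
      GC.add hG2 hG4
    have hG6 : GC (fun θ => cv (pw U r θ) q q +
        (K1 / ρ * qd b U r θ + (K2 * md b U r θ + K1 * ρ))) := GC.add hGcv hG5
    have hpt : ∀ θ, ∑ i, cv (pw U r θ) q (li (b i)) * cv (pw U r θ) q (li (b i)) ≤
        cv (pw U r θ) q q + (K1 / ρ * qd b U r θ + (K2 * md b U r θ + K1 * ρ)) := by
      intro θ
      have hV : PP (pw U r θ) (t + r) := (hPWB U t hU).1 r θ hr0.le
      obtain ⟨hq0, hqle, hcv⟩ := hQCA U t hU hcov ι b r θ hr0.le
      set x : ℝ := Real.sqrt (qd b U r θ) with hx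
      have hx0 : 0 ≤ x := Real.sqrt_nonneg _
      have hx2 : x ^ 2 = qd b U r θ := Real.sq_sqrt hq0
      have h1 := qev_dual hBAS hV b hqG (by linarith : 0 ≤ 1 + x) hcv
      have h1' : ∑ i, cv (pw U r θ) q (li (b i)) * cv (pw U r θ) q (li (b i)) ≤
          (1 + x) * cv (pw U r θ) q q := by simpa only [pow_two] using h1
      have h2 := qev_var hBAS hQGR hV b B c hB
      have hm0 : 0 ≤ md b U r θ := Finset.sum_nonneg fun i _ => sq_nonneg _
      have h3 : cv (pw U r θ) q q ≤ 4 * τ * (τ * S1 + (2 * S0 + 2 * S1 * md b U r θ)) := by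
        refine h2.trans ?_
        have h4 : 1 / (t + r) ≤ τ :=
          (one_div_le_one_div_of_le ht (by linarith)).trans htτ
        have h5 : 4 / (t + r) ≤ 4 * τ := by
          have : 4 / (t + r) = 4 * (1 / (t + r)) := by ring
          rw [this]
          linarith
        have h6 : 1 / (t + r) * S1 ≤ τ * S1 := mul_le_mul_of_nonneg_right h4 hS1n
        have h7 := qev_qv b B c U r θ
        have h8 : 0 ≤ 1 / (t + r) := by positivity
        refine mul_le_mul h5 (add_le_add h6 h7) ?_ (by positivity)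
        have h9 : 0 ≤ ∑ i, (qv b B c (pw U r θ) i) ^ 2 :=
          Finset.sum_nonneg fun i _ => sq_nonneg _
        have h10 : 0 ≤ 1 / (t + r) * S1 := mul_nonneg h8 hS1n
        exact add_nonneg h10 h9
      have hxn : x ≤ 2 * n * τ := by
        have h4 : x ^ 2 ≤ (2 * n * τ) ^ 2 := by
          rw [hx2]
          refine hqle.trans ?_
          rw [hcard]
          have : 4 * n ^ 2 / t ^ 2 = 4 * n ^ 2 * (1 / t) ^ 2 := by
            field_simp
          rw [this]
          have h5 : (1 / t) ^ 2 ≤ τ ^ 2 := pow_le_pow_left₀ (by positivity) htτ 2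
          nlinarith [sq_nonneg n]
        exact (abs_le_of_sq_le_sq' h4 (by positivity)).2
      have hxr : x ≤ (ρ + qd b U r θ / ρ) / 2 := by
        rw [← hx2, le_div_iff₀ two_pos]
        have : x ^ 2 / ρ * ρ = x ^ 2 := div_mul_cancel₀ _ hρ0.ne'
        have h4 : x * 2 * ρ ≤ (ρ + x ^ 2 / ρ) * ρ := by
          rw [add_mul, this]
          nlinarith [sq_nonneg (x - ρ)]
        exact le_of_mul_le_mul_right h4 hρ0
      have h4 : x * cv (pw U r θ) q q ≤ x * (4 * τ * (τ * S1 + (2 * S0 +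
          2 * S1 * md b U r θ))) := mul_le_mul_of_nonneg_left h3 hx0
      have h5 : x * (4 * τ * (τ * S1 + 2 * S0)) ≤
          (ρ + qd b U r θ / ρ) / 2 * (4 * τ * (τ * S1 + 2 * S0)) :=
        mul_le_mul_of_nonneg_right hxr (by positivity)
      have h6 : x * (8 * τ * S1 * md b U r θ) ≤ 2 * n * τ * (8 * τ * S1 * md b U r θ) :=
        mul_le_mul_of_nonneg_right hxn (by positivity)
      have e1 : x * (4 * τ * (τ * S1 + (2 * S0 + 2 * S1 * md b U r θ))) =
          x * (4 * τ * (τ * S1 + 2 * S0)) + x * (8 * τ * S1 * md b U r θ) := by ring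
      have e2 : (ρ + qd b U r θ / ρ) / 2 * (4 * τ * (τ * S1 + 2 * S0)) =
          K1 * ρ + K1 / ρ * qd b U r θ := by
        rw [hK1]
        field_simp
        ring
      have e3 : 2 * n * τ * (8 * τ * S1 * md b U r θ) = K2 * md b U r θ := by
        rw [hK2]
        ring
      have e4 : (1 + x) * cv (pw U r θ) q q = cv (pw U r θ) q q + x * cv (pw U r θ) q q := by
        ring
      rw [e4] at h1'
      rw [e1] at h4
      rw [e2] at h5
      rw [e3] at h6
      linarith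
    have hE1 := hmono _ _ hGsum hG6 hpt
    rw [hadd _ _ hGcv hG5, hadd _ _ hG2 hG4, hadd _ _ hG3 (GC.const _), hmul, hmul, hcst] at hE1
    have hEcv : EX U r (fun θ => cv (pw U r θ) q q) ≤ cv U q q := by
      obtain ⟨-, hdec⟩ := hCOV U t hU q q hqG hqG ι b r hr0
      have : 0 ≤ ∫ s in (0:ℝ)..r, EX U s (fun θ => ∑ i, cv (pw U s θ) q (li (b i)) *
          cv (pw U s θ) q (li (b i))) :=
        intervalIntegral.integral_nonneg hr0.le fun u _ =>
          qev_EXnn U u fun θ => Finset.sum_nonneg fun i _ => mul_self_nonneg _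
      linarith
    obtain ⟨hEq, hEm⟩ := hmom r hr0
    rw [hcard] at hEq hEm
    have hEq' : EX U r (fun θ => qd b U r θ) ≤ 9 * n ^ 3 * τ ^ 3 * r := by
      refine hEq.trans ?_
      have : 9 * n ^ 3 / t ^ 3 * r = 9 * n ^ 3 * (1 / t) ^ 3 * r := by
        field_simp
      rw [this]
      have h5 : (1 / t) ^ 3 ≤ τ ^ 3 := pow_le_pow_left₀ (by positivity) htτ 3
      have h6 : 9 * n ^ 3 * (1 / t) ^ 3 ≤ 9 * n ^ 3 * τ ^ 3 :=
        mul_le_mul_of_nonneg_left h5 (by positivity)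
      exact mul_le_mul_of_nonneg_right h6 hr0.le
    have hEm' : EX U r (fun θ => md b U r θ) ≤ n ^ 2 * τ ^ 2 * ρ := by
      refine hEm.trans ?_
      have : n ^ 2 / t ^ 2 * r = n ^ 2 * (1 / t) ^ 2 * r := by
        field_simp
      rw [this]
      have h5 : (1 / t) ^ 2 ≤ τ ^ 2 := pow_le_pow_left₀ (by positivity) htτ 2
      have h6 : n ^ 2 * (1 / t) ^ 2 ≤ n ^ 2 * τ ^ 2 := mul_le_mul_of_nonneg_left h5 (by positivity)
      have h7 : r ≤ ρ := by
        rw [← hρ2]
        nlinarith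
      exact mul_le_mul h6 h7 hr0.le (by positivity)
    have h8 : K1 / ρ * EX U r (fun θ => qd b U r θ) ≤ K1 * (9 * n ^ 3 * τ ^ 3) * ρ := by
      have : K1 / ρ * EX U r (fun θ => qd b U r θ) ≤ K1 / ρ * (9 * n ^ 3 * τ ^ 3 * r) :=
        mul_le_mul_of_nonneg_left hEq' (by positivity)
      refine this.trans (le_of_eq ?_)
      rw [← hρ2]
      field_simp
    have h9 : K2 * EX U r (fun θ => md b U r θ) ≤ K2 * (n ^ 2 * τ ^ 2 * ρ) :=
      mul_le_mul_of_nonneg_left hEm' hK2n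
    have h10 : K1 * (9 * n ^ 3 * τ ^ 3) * ρ + K2 * (n ^ 2 * τ ^ 2 * ρ) + K1 * ρ ≤
        C * ρ * (S1 + S0) := by
      have e1 : K1 ≤ 2 * τ * (τ + 2) * (S1 + S0) := by
        rw [hK1]
        nlinarith [mul_nonneg (by positivity : 0 ≤ τ) hS1n, mul_nonneg (by positivity : 0 ≤ τ) hS0n,
          mul_nonneg (by positivity : 0 ≤ τ * τ) hS0n]
      have e2 : K2 ≤ 16 * n * τ ^ 2 * (S1 + S0) := by
        rw [hK2]
        have : 0 ≤ 16 * n * τ ^ 2 * S0 := by positivity
        linarith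
      have e3 : 0 ≤ (9 * n ^ 3 * τ ^ 3 + 1) * ρ := by positivity
      have e4 := mul_le_mul_of_nonneg_right e1 e3
      have e5 := mul_le_mul_of_nonneg_right e2 (by positivity : 0 ≤ n ^ 2 * τ ^ 2 * ρ)
      rw [hCdef]
      nlinarith
    have h11 : C * ρ * (S1 + S0) ≤ C * Real.sqrt s * (S1 + S0) := by
      have : ρ ≤ Real.sqrt s := Real.sqrt_le_sqrt hr.2.le
      have hC0 : 0 ≤ C := by positivity
      exact mul_le_mul_of_nonneg_right (mul_le_mul_of_nonneg_left this hC0) (by positivity)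
    linarith
  obtain ⟨hint, heq⟩ := hCOV U t hU q q hqG hqG ι b s hs
  have h1 : (∫ r in (0:ℝ)..s, EX U r (fun θ => ∑ i, cv (pw U r θ) q (li (b i)) *
      cv (pw U r θ) q (li (b i)))) ≤ ∫ _ in (0:ℝ)..s, (cv U q q + C * Real.sqrt s * (S1 + S0)) :=
    intervalIntegral.integral_mono_on_of_le_Ioo hs.le hint intervalIntegrable_const key
  rw [intervalIntegral.integral_const, sub_zero, smul_eq_mul] at h1
  rw [hN2]
  linarith

end Pool.Agent.H59.KA
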