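import Pool.Agent.H78.KP.Stmts

/-!
# Project KA: statements (the quadratic Poincare constant is universal, `K₂ = O(1)`)

Part A of the proof of the hyperplane inequality with a universal constant
(`/team-store/KLS_K2_helper59.md`, section A').  Notation of projects KG and KP.

`qf b B c` is the quadratic polynomial `⟨B x, x⟩ + 2 ⟨c, x⟩`, `qv b B c U = c + B a` (`a` the mean)
its linear part at the mean, `Ph M B v = tr (M B M B) + ⟨M v, v⟩`.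
`GQ E t g`: for every measure with `Hess ≥ t`, covariance matrix `A`, and every quadratic
polynomial `q`, `Var q ≤ g * Ph (A + 1) B (c + B a)`.
-/

set_option autoImplicit false

open MeasureTheory Set Filter Topology
open scoped ContDiff

namespace Pool.Agent.H59.KA

open Pool.Agent.H84 hiding cv mn
open Pool.Agent.H84.Sym Pool.Agent.H84.Sym.P2x Pool.Agent.H19.KL
open Pool.Agent.H73.KG Pool.Agent.H20.KH Pool.Agent.H78.KP

section defs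

variable {E : Type} [NormedAddCommGroup E] [InnerProductSpace ℝ E]
    [FiniteDimensional ℝ E] [MeasurableSpace E] [BorelSpace E]
variable {ι : Type} [Fintype ι]

/-- quadratic polynomial -/
noncomputable def qf (b : OrthonormalBasis ι ℝ E) (B : Matrix ι ι ℝ) (c : ι → ℝ) (x : E) : ℝ :=
  (∑ i, ∑ j, B i j * (li (b i) x * li (b j) x)) + 2 * ∑ i, c i * li (b i) x

/-- linear part of the quadratic polynomial at the mean -/
noncomputable def qv (b : OrthonormalBasis ι ℝ E) (B : Matrix ι ι ℝ) (c : ι → ℝ) (U : E → ℝ)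
    (i : ι) : ℝ := c i + ∑ j, B i j * mn U (b j)

/-- `tr (M B M B) + ⟨M v, v⟩` -/
def Ph (M B : Matrix ι ι ℝ) (v : ι → ℝ) : ℝ :=
  (∑ i, ∑ j, ∑ k, ∑ l, M i j * B j k * (M k l * B l i)) + ∑ i, ∑ j, M i j * (v i * v j)

/-- `‖B‖² + |v|²` -/
def N2 (B : Matrix ι ι ℝ) (v : ι → ℝ) : ℝ := (∑ i, ∑ j, (B i j) ^ 2) + ∑ i, (v i) ^ 2

/-- symmetric matrices -/
def SY (B : Matrix ι ι ℝ) : Prop := ∀ i j, B i j = B j i

variable (E) in
/-- the constant `g` is good for the variance of quadratic polynomials -/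
def GQ (t g : ℝ) : Prop := ∀ U : E → ℝ, PP U t → ∀ (ι : Type) [Fintype ι] [DecidableEq ι]
  (b : OrthonormalBasis ι ℝ E) (B : Matrix ι ι ℝ) (c : ι → ℝ), SY B →
  cv U (qf b B c) (qf b B c) ≤ g * Ph (cm b U + 1) B (qv b B c U)

/-- the matrix of third moments with first index `k` -/
noncomputable def tm (b : OrthonormalBasis ι ℝ E) (V : E → ℝ) (k : ι) : Matrix ι ι ℝ :=
  Matrix.of fun i j => t3 V (b k) (b i) (b j)

/-- the generator of `Ph` along the channel -/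
noncomputable def GE [DecidableEq ι] (b : OrthonormalBasis ι ℝ E) (Y : ι → ℝ) (B : Matrix ι ι ℝ)
    (v : ι → ℝ) (V : E → ℝ) : ℝ :=
  -2 * (cm b V * cm b V * B * (cm b V + Matrix.diagonal Y) * B).trace +
    (∑ k, (tm b V k * B * tm b V k * B).trace) - (∑ i, (∑ j, cm b V i j * v j) ^ 2) +
    2 * (∑ k, ∑ i, (∑ j, tm b V k i j * v j) * (B * cm b V) i k) +
    ∑ k, ∑ i, ∑ j, (cm b V + Matrix.diagonal Y) i j * ((B * cm b V) i k * (B * cm b V) j k)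

/-- distance of the mean of the posterior measure from the original one -/
noncomputable def md (b : OrthonormalBasis ι ℝ E) (U : E → ℝ) (r : ℝ) (θ : E) : ℝ :=
  ∑ i, (mn (pw U r θ) (b i) - mn U (b i)) ^ 2

end defs

section first

variable (E : Type) [NormedAddCommGroup E] [InnerProductSpace ℝ E]
    [FiniteDimensional ℝ E] [MeasurableSpace E] [BorelSpace E]

/-- QGR: regularity and gradient of quadratic polynomials -/
def QGRStmt : Prop := ∀ (ι : Type) [Fintype ι] (b : OrthonormalBasis ι ℝ E) (B : Matrix ι ι ℝ)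
  (c : ι → ℝ), SY B → ContDiff ℝ 1 (qf b B c) ∧ GC (qf b B c) ∧
  Gr (fun x => ‖fderiv ℝ (qf b B c) x‖) ∧
  ∀ (U : E → ℝ) (t : ℝ), PP U t → ∫ x, ‖fderiv ℝ (qf b B c) x‖ ^ 2 ∂(mu U) =
    4 * ((B * cm b U * B).trace + ∑ i, (qv b B c U i) ^ 2)

/-- QCB: change of the basis -/
def QCBStmt : Prop := ∀ (U : E → ℝ) (t : ℝ), PP U t → ∀ (ι : Type) [Fintype ι] [DecidableEq ι]
  (b c : OrthonormalBasis ι ℝ E) (B : Matrix ι ι ℝ) (v : ι → ℝ), SY B →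
  ∃ (B' : Matrix ι ι ℝ) (v' : ι → ℝ), SY B' ∧ qf b B v = qf c B' v' ∧
    Ph (cm b U + 1) B (qv b B v U) = Ph (cm c U + 1) B' (qv c B' v' U)

/-- QDL: diagonal changes of variables in quadratic polynomials -/
def QDLStmt : Prop := ∀ (U : E → ℝ) (t : ℝ), PP U t → ∀ (ι : Type) [Fintype ι] [DecidableEq ι]
  (b : OrthonormalBasis ι ℝ E) (l : ι → ℝ), (∀ i, 0 < l i) →
  ∀ (B : Matrix ι ι ℝ) (c : ι → ℝ),
  (∀ x : E, qf b B c (dl b l x) =
    qf b (Matrix.of fun i j => l i * B i j * l j) (fun i => l i * c i) x) ∧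
  (∀ i, qv b (Matrix.of fun i j => l i * B i j * l j) (fun i => l i * c i) (dU b l U) i =
    l i * qv b B c U i) ∧
  cv (dU b l U) (qf b (Matrix.of fun i j => l i * B i j * l j) (fun i => l i * c i))
    (qf b (Matrix.of fun i j => l i * B i j * l j) (fun i => l i * c i)) =
    cv U (qf b B c) (qf b B c)

/-- QAF: the affine covariant form of `GQ` -/
def QAFStmt : Prop := ∀ (t' g : ℝ), 0 < t' → GQ E t' g → ∀ (U : E → ℝ) (t : ℝ), PP U t →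
  ∀ (ι : Type) [Fintype ι] [DecidableEq ι] (b : OrthonormalBasis ι ℝ E) (β : ι → ℝ),
  (∀ i, 0 < β i) → (∀ x v : E, ∑ i, β i * (inner ℝ (b i) v) ^ 2 ≤ fderiv ℝ (fderiv ℝ U) x v v) →
  ∀ (B : Matrix ι ι ℝ) (c : ι → ℝ), SY B →
  cv U (qf b B c) (qf b B c) ≤
    g * Ph (cm b U + Matrix.diagonal (fun i => t' / β i)) B (qv b B c U)

/-- QWH: whitening -/
def QWHStmt : Prop := ∀ t g : ℝ, 0 < t → ¬ GQ E t g →
  ∃ (ι : Type) (_ : Fintype ι) (_ : DecidableEq ι) (b : OrthonormalBasis ι ℝ E) (ρ : ι → ℝ)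
    (U : E → ℝ) (B : Matrix ι ι ℝ) (c : ι → ℝ), WC b t ρ U ∧ SY B ∧
    g * N2 B (qv b B c U) < cv U (qf b B c) (qf b B c)

/-- QS0: the simple bound -/
def QS0Stmt : Prop := ∀ t : ℝ, 0 < t → t ≤ 1 → GQ E t (4 / Real.sqrt t)

/-- QQB: from `GQ` to the quadratic Poincare constant and to third moments -/
def QQBStmt : Prop := ∀ t g : ℝ, 0 < t → 0 ≤ g → GQ E t g → QK E t (4 * g) ∧ TK E t (4 * g)

/-- QGN: the generator of `Ph` along the channel -/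
def QGNStmt : Prop := ∀ (U : E → ℝ) (t : ℝ), PP U t → ∀ (ι : Type) [Fintype ι] [DecidableEq ι]
  (b : OrthonormalBasis ι ℝ E) (Y : ι → ℝ) (B : Matrix ι ι ℝ) (c : ι → ℝ), SY B →
  RG (fun r θ => Ph (cm b (pw U r θ) + Matrix.diagonal Y) B (qv b B c (pw U r θ))) ∧
  ∀ (r : ℝ) (θ : E), 0 < r →
    gen b U (fun r θ => Ph (cm b (pw U r θ) + Matrix.diagonal Y) B (qv b B c (pw U r θ))) r θ =
    GE b Y B (qv b B c (pw U r θ)) (pw U r θ)

/-- QGB: bound for the generator -/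
def QGBStmt : Prop := ∀ (V : E → ℝ) (t : ℝ), PP V t → ∀ (ι : Type) [Fintype ι] [DecidableEq ι]
  (b : OrthonormalBasis ι ℝ E) (Y : ι → ℝ) (B : Matrix ι ι ℝ) (v : ι → ℝ) (a κ : ℝ), SY B →
  (∀ i, 0 ≤ Y i ∧ Y i ≤ 2) → 1 ≤ a → CovLe V a → 0 ≤ κ → T3L V (a ^ 3 * κ) →
  GE b Y B v V ≤ a ^ 3 * ((2 * κ + 3) * (∑ i, ∑ j, (B i j) ^ 2) + ∑ i, (v i) ^ 2)

/-- QMO: continuity in time of the covariance matrix and the mean -/
def QMOStmt : Prop := ∀ (U : E → ℝ) (t : ℝ), PP U t → ∀ (ι : Type) [Fintype ι]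
  (b : OrthonormalBasis ι ℝ E),
  RG (fun r θ => qd b U r θ) ∧ RG (fun r θ => md b U r θ) ∧ ∀ r : ℝ, 0 < r →
  EX U r (fun θ => qd b U r θ) ≤ 9 * (Fintype.card ι) ^ 3 / t ^ 3 * r ∧
  EX U r (fun θ => md b U r θ) ≤ (Fintype.card ι) ^ 2 / t ^ 2 * r

/-- QEF: the mean of `Ph` after a short time -/
def QEFStmt : Prop := ∀ t0 : ℝ, 0 < t0 → t0 ≤ 1 → ∃ C : ℝ, 1 ≤ C ∧ ∀ κ : ℝ, 0 ≤ κ → TK E t0 κ →
  ∀ t : ℝ, t0 ≤ t → t ≤ 1 → ∀ (ι : Type) [Fintype ι] [DecidableEq ι]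
  (b : OrthonormalBasis ι ℝ E) (ρ : ι → ℝ) (U : E → ℝ), WC b t ρ U →
  ∀ (B : Matrix ι ι ℝ) (c : ι → ℝ) (e s : ℝ), SY B → 0 ≤ e → e ≤ 1 → 0 < s → s ≤ 1 →
  EX U s (fun θ => Ph (cm b (pw U s θ) + Matrix.diagonal (fun i => ρ i + e)) B
    (qv b B c (pw U s θ))) ≤
    ((1 + e) ^ 2 + s * (2 * κ + 3) * (1 + C * Real.sqrt s)) * N2 B (qv b B c U)

/-- QEV: the decrease of the variance -/
def QEVStmt : Prop := ∀ t0 : ℝ, 0 < t0 → t0 ≤ 1 → ∃ C : ℝ, 1 ≤ C ∧ ∀ t : ℝ, t0 ≤ t → t ≤ 1 →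
  ∀ (U : E → ℝ), PP U t → CovLe U 1 → ∀ (ι : Type) [Fintype ι]
  (b : OrthonormalBasis ι ℝ E) (B : Matrix ι ι ℝ) (c : ι → ℝ) (s : ℝ), SY B → 0 < s → s ≤ 1 →
  cv U (qf b B c) (qf b B c) ≤ EX U s (fun θ => cv (pw U s θ) (qf b B c) (qf b B c)) +
    s * (cv U (qf b B c) (qf b B c) + C * Real.sqrt s * N2 B (qv b B c U))

/-- QST: one short step -/
def QSTStmt : Prop := ∀ t0 : ℝ, 0 < t0 → t0 ≤ 1 → ∃ C : ℝ, 1 ≤ C ∧ ∀ κ : ℝ, 0 ≤ κ → TK E t0 κ →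
  ∀ t s η g L : ℝ, t0 ≤ t → t ≤ 1 → 0 < s → s ≤ 1 / 2 → 0 < η → s * η ^ 2 / (4 * t) ≤ 1 →
  0 ≤ g → 0 ≤ L → GQ E (t + η * s) g →
  g * ((1 + s * η ^ 2 / (4 * t)) ^ 2 + s * (2 * κ + 3) * (1 + C * Real.sqrt s)) +
    C * s * Real.sqrt s ≤ (1 - s) * L → GQ E t L

end first

/-- QPH: algebra of `Ph` -/
def QPHStmt : Prop := ∀ (ι : Type) [Fintype ι] [DecidableEq ι] (M B : Matrix ι ι ℝ) (v : ι → ℝ),
  SY B → Ph M B v = (M * B * M * B).trace + ∑ i, ∑ j, M i j * (v i * v j) ∧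
  (∀ a : ℝ, Ph (a • (1 : Matrix ι ι ℝ)) B v = a ^ 2 * (∑ i, ∑ j, (B i j) ^ 2) +
    a * ∑ i, (v i) ^ 2) ∧
  (M.PosSemidef → 0 ≤ Ph M B v) ∧
  ∀ D : Matrix ι ι ℝ, M.PosSemidef → D.PosSemidef → Ph M B v ≤ Ph (M + D) B v

/-- QIN: integration of the differential inequality -/
def QINStmt : Prop := ∀ (P : ℝ → ℝ → Prop) (t0 Q C : ℝ), 0 < t0 → t0 ≤ 1 → 1 ≤ Q → 1 ≤ C →
  (∀ t : ℝ, 0 < t → t ≤ 1 → P t (4 / Real.sqrt t)) →
  (∀ t s η g L : ℝ, t0 ≤ t → t ≤ 1 → 0 < s → s ≤ 1 / 2 → 0 < η → s * η ^ 2 / (4 * t) ≤ 1 →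
    0 ≤ g → 0 ≤ L → P (t + η * s) g →
    g * ((1 + s * η ^ 2 / (4 * t)) ^ 2 + s * (8 * Q + 3) * (1 + C * Real.sqrt s)) +
      C * s * Real.sqrt s ≤ (1 - s) * L → P t L) →
  (∀ t g g' : ℝ, P t g → g ≤ g' → P t g') →
  P t0 (200 * Real.sqrt Q)

/-- QFN: the final statement for quadratic polynomials -/
def QFNStmt : Prop := ∃ C : ℝ, 1 ≤ C ∧ ∀ (E : Type) [NormedAddCommGroup E]
    [InnerProductSpace ℝ E] [FiniteDimensional ℝ E] [MeasurableSpace E] [BorelSpace E] (t : ℝ),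
  0 < t → GQ E t C

/-- QKF: the quadratic Poincare constant is universal -/
def QKFStmt : Prop := ∃ C : ℝ, 1 ≤ C ∧ ∀ (E : Type) [NormedAddCommGroup E]
    [InnerProductSpace ℝ E] [FiniteDimensional ℝ E] [MeasurableSpace E] [BorelSpace E] (t : ℝ),
  0 < t → QK E t C

end Pool.Agent.H59.KA
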